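import Pool.Agent.H78.CM.Targets

/-! Module GRP: a one-parameter group which commutes with the kernel of a representation. -/

set_option autoImplicit false

open Filter Topology MeasureTheory Set

universe u

namespace Pool.Agent.H85.CM.GRP

open Pool.Agent.H78.CM

lemma exp_cont (m : ℕ) (a : Mat m) : Continuous fun t : ℝ => NormedSpace.exp (t • a) := by
  open scoped Matrix.Norms.Operator in
  exact NormedSpace.exp_continuous.comp (continuous_id.smul continuous_const)

lemma exp_add (m : ℕ) (a : Mat m) (s t : ℝ) :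
    NormedSpace.exp ((s + t) • a) = NormedSpace.exp (s • a) * NormedSpace.exp (t • a) := by
  rw [add_smul]
  exact Matrix.exp_add_of_commute _ _ (((Commute.refl a).smul_left s).smul_right t)

lemma exp_inj (m : ℕ) (a : Mat m) (h : ∀ t : ℝ, NormedSpace.exp (t • a) = 1) : a = 0 := by
  open scoped Matrix.Norms.Operator in
  have h1 : HasDerivAt (fun u : ℝ => NormedSpace.exp (u • a)) (NormedSpace.exp ((0 : ℝ) • a) * a) 0 :=
    hasDerivAt_exp_smul_const a (0 : ℝ)
  have h2 : HasDerivAt (fun u : ℝ => NormedSpace.exp (u • a)) (0 : Mat m) 0 := by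
    have : (fun u : ℝ => NormedSpace.exp (u • a)) = fun _ => (1 : Mat m) := funext h
    rw [this]
    exact hasDerivAt_const _ _
  have h3 := h1.unique h2
  rw [h 0, one_mul] at h3
  exact h3

variable {K : Type u} [Group K] [TopologicalSpace K]

lemma map_inv_exp {m : ℕ} (σ : K →* Mat m) (a : Mat m) {t : ℝ} {k : K} (h : σ k = NormedSpace.exp (t • a)) :
    σ k⁻¹ = NormedSpace.exp ((-t) • a) := by
  have h1 : σ k⁻¹ * σ k = 1 := by rw [← map_mul, inv_mul_cancel, map_one]
  have h2 : NormedSpace.exp (t • a) * NormedSpace.exp ((-t) • a) = (1 : Mat m) := by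
    rw [← exp_add, add_neg_cancel, zero_smul, NormedSpace.exp_zero]
  calc σ k⁻¹ = σ k⁻¹ * (NormedSpace.exp (t • a) * NormedSpace.exp ((-t) • a)) := by rw [h2, mul_one]
    _ = (σ k⁻¹ * σ k) * NormedSpace.exp ((-t) • a) := by rw [h, mul_assoc]
    _ = NormedSpace.exp ((-t) • a) := by rw [h1, one_mul]

/-- the first family -/
lemma oneP_zero {m : ℕ} (σ : K →* Mat m) (hσ : Continuous σ) (a : Mat m)
    (ha : ∀ t : ℝ, ∃ k, σ k = NormedSpace.exp (t • a)) :
    OneP (fun t : ℝ => {k : K | σ k = NormedSpace.exp (t • a)}) where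
  closed := isClosed_eq (hσ.comp continuous_snd) ((exp_cont m a).comp continuous_fst)
  mul s t k l hk hl := by
    show σ (k * l) = _
    rw [map_mul, hk, hl, exp_add]
  inv t k hk := map_inv_exp σ a hk
  ne t := ha t

/-- a countable separating family of representations -/
lemma exists_seq (h1 : T_PW.{u}) [IsTopologicalGroup K] [CompactSpace K] [T2Space K]
    [SecondCountableTopology K] (hK : ¬ TotallyDisconnectedSpace K) :
    ∃ (m : ℕ → ℕ) (τ : ∀ n, K →* Mat (m n)), (∀ n, Continuous (τ n)) ∧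
      (∀ n, ∀ k, (τ n k).transpose * τ n k = 1) ∧ ∀ k : K, (∀ n, τ n k = 1) → k = 1 := by
  have hchoose : ∀ k : {k : K // k ≠ 1}, ∃ (m : ℕ) (σ : K →* Mat m), Continuous σ ∧
      (∀ g, (σ g).transpose * σ g = 1) ∧ σ k ≠ 1 := fun k => h1 K k.1 k.2
  choose m σ hc ho hk using hchoose
  obtain ⟨T, hTc, hT⟩ := TopologicalSpace.isOpen_iUnion_countable
    (fun k : {k : K // k ≠ 1} => {g : K | σ k g ≠ 1})
    (fun k => (isClosed_eq (hc k) continuous_const).isOpen_compl)
  have hne : T.Nonempty := by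
    by_contra hemp
    rw [Set.not_nonempty_iff_eq_empty] at hemp
    apply hK
    have hsub : ∀ k : K, k = 1 := by
      intro k
      by_contra hk1
      have : k ∈ ⋃ i : {k : K // k ≠ 1}, {g : K | σ i g ≠ 1} :=
        Set.mem_iUnion.2 ⟨⟨k, hk1⟩, hk ⟨k, hk1⟩⟩
      rw [← hT, hemp] at this
      simp at this
    have : Subsingleton K := ⟨fun a b => by rw [hsub a, hsub b]⟩
    exact ⟨fun t _ _ => Set.subsingleton_of_subsingleton⟩
  obtain ⟨e, he⟩ := hTc.exists_eq_range hne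
  refine ⟨fun n => m (e n), fun n => σ (e n), fun n => hc _, fun n => ho _, ?_⟩
  intro k hkn
  by_contra hk1
  have : k ∈ ⋃ i : {k : K // k ≠ 1}, {g : K | σ i g ≠ 1} :=
    Set.mem_iUnion.2 ⟨⟨k, hk1⟩, hk ⟨k, hk1⟩⟩
  rw [← hT] at this
  rw [Set.mem_iUnion₂] at this
  obtain ⟨i, hi, hik⟩ := this
  rw [he] at hi
  obtain ⟨n, rfl⟩ := hi
  exact hik (hkn n)

/-- **GRP.** -/
theorem pf_GRP (h1 : T_PW.{u}) (h2 : T_BEG.{u}) (h3 : T_MIN.{u}) : T_GRP.{u} := by
  intro K _ _ _ _ _ _ hK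
  obtain ⟨m, σ, hσc, hσo, a, ha0, ha⟩ := h2 K hK
  refine ⟨m, σ, hσc, hσo, ?_⟩
  obtain ⟨mm, τ, hτc, hτo, hsep⟩ := exists_seq h1 hK
  have hstep : ∀ (n : ℕ) (T : {T : ℝ → Set K // OneP T}), ∃ T' : {T : ℝ → Set K // OneP T},
      (∀ t, T'.1 t ⊆ T.1 t) ∧ (∀ l ∈ T'.1 0, τ n l = 1) ∧
      ∀ k : K, (∀ t, ∀ l ∈ T.1 t, k * l * k⁻¹ ∈ T.1 t) → ∀ t, ∀ l ∈ T'.1 t, k * l * k⁻¹ ∈ T'.1 t := by
    intro n T
    obtain ⟨b, hb1, hb2⟩ := h3 K T.1 T.2 (mm n) (τ n) (hτc n) (hτo n)
    refine ⟨⟨fun t => {l | l ∈ T.1 t ∧ τ n l = NormedSpace.exp (t • b)}, hb1⟩, fun t l hl => hl.1, ?_, hb2⟩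
    intro l hl
    rw [hl.2, zero_smul, NormedSpace.exp_zero]
  choose F hF1 hF2 hF3 using hstep
  let S : ℕ → {T : ℝ → Set K // OneP T} := fun n =>
    Nat.rec ⟨fun t : ℝ => {k : K | σ k = NormedSpace.exp (t • a)}, oneP_zero σ hσc a ha⟩ (fun n T => F n T) n
  have hS0 : ∀ t, (S 0).1 t = {k : K | σ k = NormedSpace.exp (t • a)} := fun t => rfl
  have hSs : ∀ n, S (n + 1) = F n (S n) := fun n => rfl
  have hdec : ∀ n t, (S (n + 1)).1 t ⊆ (S n).1 t := fun n t => by
    rw [hSs]; exact hF1 n (S n) t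
  have hcl : ∀ n t, IsClosed ((S n).1 t) := by
    intro n t
    have := (S n).2.closed.preimage (Continuous.prodMk_right (Y := K) t)
    exact this
  have hnon : ∀ t, (⋂ n, (S n).1 t).Nonempty := by
    intro t
    exact IsCompact.nonempty_iInter_of_sequence_nonempty_isCompact_isClosed (fun n => (S n).1 t)
      (fun n => hdec n t) (fun n => (S n).2.ne t) (hcl 0 t).isCompact (fun n => hcl n t)
  have huniq : ∀ t k l, k ∈ ⋂ n, (S n).1 t → l ∈ ⋂ n, (S n).1 t → k = l := by
    intro t k l hk hl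
    rw [Set.mem_iInter] at hk hl
    have : k * l⁻¹ = 1 := by
      apply hsep
      intro n
      have h := (S (n + 1)).2.mul t (-t) k l⁻¹ (hk (n + 1)) ((S (n + 1)).2.inv t l (hl (n + 1)))
      rw [add_neg_cancel, hSs] at h
      exact hF2 n (S n) _ h
    exact mul_inv_eq_one.1 this
  choose φ hφ using hnon
  have hφn : ∀ t n, φ t ∈ (S n).1 t := fun t n => Set.mem_iInter.1 (hφ t) n
  have hφc : Continuous φ := by
    have hgraph : ∀ t k, k = φ t ↔ (t, k) ∈ ⋂ n, {p : ℝ × K | p.2 ∈ (S n).1 p.1} := by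
      intro t k
      constructor
      · rintro rfl
        exact Set.mem_iInter.2 fun n => hφn t n
      · intro h
        exact huniq t k (φ t) (Set.mem_iInter.2 fun n => Set.mem_iInter.1 h n) (hφ t)
    have hgcl : IsClosed (⋂ n, {p : ℝ × K | p.2 ∈ (S n).1 p.1}) := isClosed_iInter fun n => (S n).2.closed
    rw [continuous_iff_isClosed]
    intro C hC
    have himg : φ ⁻¹' C = Prod.fst '' ((⋂ n, {p : ℝ × K | p.2 ∈ (S n).1 p.1}) ∩ Prod.snd ⁻¹' C) := by
      ext t
      constructor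
      · intro ht
        exact ⟨(t, φ t), ⟨(hgraph t (φ t)).1 rfl, ht⟩, rfl⟩
      · rintro ⟨⟨t', k⟩, ⟨h4, h5⟩, rfl⟩
        have := (hgraph t' k).2 h4
        show φ t' ∈ C
        rw [← this]
        exact h5
    rw [himg]
    exact isClosedMap_fst_of_compactSpace _ (hgcl.inter (hC.preimage continuous_snd))
  refine ⟨φ, hφc, ?_, ?_, ?_⟩
  · intro s t
    refine huniq (s + t) _ _ (hφ _) (Set.mem_iInter.2 fun n => ?_)
    exact (S n).2.mul s t _ _ (hφn s n) (hφn t n)
  · by_contra hcon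
    push Not at hcon
    refine ha0 (exp_inj m a fun t => ?_)
    have h4 := hφn t 0
    rw [hS0, hcon t] at h4
    have h5 : σ 1 = NormedSpace.exp (t • a) := h4
    rw [← h5, map_one]
  · intro k hk t
    have hnorm : ∀ n, ∀ t, ∀ l ∈ (S n).1 t, k * l * k⁻¹ ∈ (S n).1 t := by
      intro n
      induction n with
      | zero =>
        intro t l hl
        have hl' : σ l = NormedSpace.exp (t • a) := hl
        show σ (k * l * k⁻¹) = NormedSpace.exp (t • a)
        have hk' : σ k⁻¹ = 1 := by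
          have : σ k⁻¹ * σ k = 1 := by rw [← map_mul, inv_mul_cancel, map_one]
          rw [hk, mul_one] at this
          exact this
        rw [map_mul, map_mul, hk, hk', one_mul, mul_one, hl']
      | succ n ih =>
        rw [hSs]
        exact hF3 n (S n) k ih
    have h6 : k * φ t * k⁻¹ = φ t :=
      huniq t _ _ (Set.mem_iInter.2 fun n => hnorm n t _ (hφn t n)) (hφ t)
    rw [mul_inv_eq_iff_eq_mul] at h6
    exact h6

end Pool.Agent.H85.CM.GRP
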